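import Mathlib

set_option autoImplicit false

/-! # A finitely generated soluble group that is not finitely invariably generated

The free soluble group of rank two and derived length three acts transitively by affine monomial
maps on `F_p ^ N` in such a way that all short words have fixed points. -/

namespace Pool.Agent.H876R3.FIG

variable {N p : ℕ}

/-- `σ` is the affine monomial map with shift `k`, multipliers `c` and translation part `b`. -/
def KForm (σ : Equiv.Perm (ZMod N → ZMod p)) (k : ZMod N) (c : ZMod N → (ZMod p)ˣ)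
    (b : ZMod N → ZMod p) : Prop :=
  ∀ w j, σ w j = c j * w (j - k) + b j

theorem KForm.one : KForm (1 : Equiv.Perm (ZMod N → ZMod p)) 0 1 0 := by
  intro w j
  simp

theorem KForm.mul {σ τ : Equiv.Perm (ZMod N → ZMod p)} {k k' : ZMod N}
    {c c' : ZMod N → (ZMod p)ˣ} {b b' : ZMod N → ZMod p}
    (h : KForm σ k c b) (h' : KForm τ k' c' b') :
    KForm (σ * τ) (k + k') (fun j => c j * c' (j - k)) (fun j => c j * b' (j - k) + b j) := by
  intro w j
  rw [Equiv.Perm.mul_apply, h, h']
  rw [sub_sub]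
  push_cast
  ring

theorem KForm.inv {σ : Equiv.Perm (ZMod N → ZMod p)} {k : ZMod N}
    {c : ZMod N → (ZMod p)ˣ} {b : ZMod N → ZMod p}
    (h : KForm σ k c b) :
    KForm σ⁻¹ (-k) (fun j => (c (j + k))⁻¹)
      (fun j => -(((c (j + k))⁻¹ : (ZMod p)ˣ) : ZMod p) * b (j + k)) := by
  intro w j
  have h1 := h (σ⁻¹ w) (j + k)
  have h2 : σ (σ⁻¹ w) = w := by simp
  rw [h2, add_sub_cancel_right] at h1
  have h3 : ((((c (j + k))⁻¹ : (ZMod p)ˣ) : ZMod p)) * (c (j + k) : ZMod p) = 1 := by
    rw [← Units.val_mul, inv_mul_cancel, Units.val_one]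
  have h4 : j - -k = j + k := by ring
  rw [h4]
  calc (σ⁻¹ w) j = ((((c (j + k))⁻¹ : (ZMod p)ˣ) : ZMod p)) * (c (j + k) : ZMod p) * (σ⁻¹ w) j := by
        rw [h3, one_mul]
    _ = _ := by
        rw [h1]; ring

/-- Affine monomial maps. -/
def K0 (N p : ℕ) : Subgroup (Equiv.Perm (ZMod N → ZMod p)) where
  carrier := {σ | ∃ k c b, KForm σ k c b}
  mul_mem' := by
    rintro σ τ ⟨k, c, b, h⟩ ⟨k', c', b', h'⟩
    exact ⟨_, _, _, h.mul h'⟩
  one_mem' := ⟨_, _, _, KForm.one⟩
  inv_mem' := by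
    rintro σ ⟨k, c, b, h⟩
    exact ⟨_, _, _, h.inv⟩

/-- Affine diagonal maps. -/
def K1 (N p : ℕ) : Subgroup (Equiv.Perm (ZMod N → ZMod p)) where
  carrier := {σ | ∃ c b, KForm σ 0 c b}
  mul_mem' := by
    rintro σ τ ⟨c, b, h⟩ ⟨c', b', h'⟩
    have := h.mul h'
    rw [add_zero] at this
    exact ⟨_, _, this⟩
  one_mem' := ⟨_, _, KForm.one⟩
  inv_mem' := by
    rintro σ ⟨c, b, h⟩
    have := h.inv
    rw [neg_zero] at this
    exact ⟨_, _, this⟩

/-- Translations. -/
def K2 (N p : ℕ) : Subgroup (Equiv.Perm (ZMod N → ZMod p)) where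
  carrier := {σ | ∃ b, KForm σ 0 1 b}
  mul_mem' := by
    rintro σ τ ⟨b, h⟩ ⟨b', h'⟩
    refine ⟨b' + b, fun w j => ?_⟩
    rw [Equiv.Perm.mul_apply, h, h']
    simp [add_assoc]
  one_mem' := ⟨_, KForm.one⟩
  inv_mem' := by
    rintro σ ⟨b, h⟩
    refine ⟨-b, fun w j => ?_⟩
    have h1 := h (σ⁻¹ w) j
    have h2 : σ (σ⁻¹ w) = w := by simp
    rw [h2] at h1
    simp only [Pi.one_apply, Units.val_one, one_mul, sub_zero] at h1
    simp only [Pi.one_apply, Units.val_one, one_mul, sub_zero, Pi.neg_apply]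
    rw [h1]; ring

theorem comm_K0 : ⁅K0 N p, K0 N p⁆ ≤ K1 N p := by
  rw [Subgroup.commutator_le]
  rintro σ ⟨k, c, b, h⟩ τ ⟨k', c', b', h'⟩
  have := ((h.mul h').mul h.inv).mul h'.inv
  rw [commutatorElement_def]
  have hk : k + k' + -k + -k' = 0 := by ring
  rw [hk] at this
  exact ⟨_, _, this⟩

theorem comm_K1 : ⁅K1 N p, K1 N p⁆ ≤ K2 N p := by
  rw [Subgroup.commutator_le]
  rintro σ ⟨c, b, h⟩ τ ⟨c', b', h'⟩
  have := ((h.mul h').mul h.inv).mul h'.inv
  rw [commutatorElement_def]
  have hc : ∀ j, c j * c' j * (c j)⁻¹ * (c' j)⁻¹ = 1 := by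
    intro j
    rw [mul_comm (c j) (c' j), mul_assoc (c' j), mul_inv_cancel, mul_one, mul_inv_cancel]
  refine ⟨(σ * τ * σ⁻¹ * τ⁻¹) 0, fun w j => ?_⟩
  rw [this w j, this 0 j]
  simp only [neg_zero, add_zero, sub_zero, hc]
  simp

theorem comm_K2 : ⁅K2 N p, K2 N p⁆ ≤ ⊥ := by
  rw [Subgroup.commutator_le]
  rintro σ ⟨b, h⟩ τ ⟨b', h'⟩
  rw [Subgroup.mem_bot, commutatorElement_eq_one_iff_mul_comm]
  ext w j
  rw [Equiv.Perm.mul_apply, Equiv.Perm.mul_apply, h, h', h', h]
  simp only [Pi.one_apply, Units.val_one, one_mul, sub_zero]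
  ring

/-- The generator acting as a scaled cyclic shift. -/
def X (ξ : (ZMod p)ˣ) : Equiv.Perm (ZMod N → ZMod p) where
  toFun w := fun j => ξ * w (j - 1)
  invFun w := fun j => ((ξ⁻¹ : (ZMod p)ˣ) : ZMod p) * w (j + 1)
  left_inv w := by
    ext j
    simp
  right_inv w := by
    ext j
    simp

/-- The generator acting as a reflection of the coordinate `0`. -/
def Y : Equiv.Perm (ZMod N → ZMod p) where
  toFun w := fun j => if j = 0 then 1 - w j else w j
  invFun w := fun j => if j = 0 then 1 - w j else w j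
  left_inv w := by
    ext j
    by_cases h : j = 0 <;> simp [h]
  right_inv w := by
    ext j
    by_cases h : j = 0 <;> simp [h]

theorem X_form (ξ : (ZMod p)ˣ) :
    KForm (X ξ : Equiv.Perm (ZMod N → ZMod p)) 1 (fun _ => ξ) 0 := by
  intro w j
  simp [X]

theorem Y_form : KForm (Y : Equiv.Perm (ZMod N → ZMod p)) 0
    (fun j => if j = 0 then -1 else 1) (fun j => if j = 0 then 1 else 0) := by
  intro w j
  by_cases h : j = 0
  · simp [Y, h]; ring
  · simp [Y, h]

/-- The action of the free group of rank two. -/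
noncomputable def rho (N : ℕ) (ξ : (ZMod p)ˣ) :
    FreeGroup Bool →* Equiv.Perm (ZMod N → ZMod p) :=
  FreeGroup.lift (fun i : Bool => if i then X ξ else Y)

/-- Exponent of `x`. -/
noncomputable def ee : FreeGroup Bool →* Multiplicative ℤ :=
  FreeGroup.lift (fun i : Bool => if i then Multiplicative.ofAdd 1 else 1)

/-- Forms of the elements of the image: the shift is the `x`-exponent and the squares of the
multipliers are powers of `ξ`. -/
theorem rho_form (ξ : (ZMod p)ˣ) (g : FreeGroup Bool) :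
    ∃ c b, KForm (rho N ξ g) ((Multiplicative.toAdd (ee g) : ℤ) : ZMod N) c b ∧
      ∀ j, c j ^ 2 = (ξ ^ 2) ^ (Multiplicative.toAdd (ee g)) := by
  induction g using FreeGroup.induction_on with
  | C1 =>
      refine ⟨1, 0, ?_, ?_⟩
      · simpa using KForm.one
      · intro j; simp
  | of i =>
      cases i
      · refine ⟨fun j => if j = 0 then -1 else 1, fun j => if j = 0 then 1 else 0, ?_, ?_⟩
        · have := Y_form (N := N) (p := p)
          simpa [rho, ee] using this
        · intro j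
          by_cases h : j = 0 <;> simp [ee, h]
      · refine ⟨fun _ => ξ, 0, ?_, ?_⟩
        · have := X_form (N := N) ξ
          simpa [rho, ee] using this
        · intro j
          simp [ee]
  | inv_of i hi =>
      obtain ⟨c, b, h1, h2⟩ := hi
      have h3 := h1.inv
      refine ⟨_, _, (by rw [map_inv, map_inv, toAdd_inv, Int.cast_neg]; exact h3), ?_⟩
      intro j
      simp only [map_inv, toAdd_inv, inv_pow, zpow_neg]
      rw [h2]
  | mul x y hx hy =>
      obtain ⟨c, b, h1, h2⟩ := hx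
      obtain ⟨c', b', h1', h2'⟩ := hy
      have h3 := h1.mul h1'
      refine ⟨_, _, (by rw [map_mul, map_mul, toAdd_mul, Int.cast_add]; exact h3), ?_⟩
      intro j
      simp only [map_mul, toAdd_mul]
      rw [mul_pow, h2, h2', zpow_add]

theorem rho_mem_K0 (ξ : (ZMod p)ˣ) (g : FreeGroup Bool) : rho N ξ g ∈ K0 N p := by
  obtain ⟨c, b, h, _⟩ := rho_form (N := N) ξ g
  exact ⟨_, _, _, h⟩

theorem rho_derived (ξ : (ZMod p)ˣ) : derivedSeries (FreeGroup Bool) 3 ≤ (rho N ξ).ker := by
  have h1 : derivedSeries (FreeGroup Bool) 1 ≤ (K1 N p).comap (rho N ξ) := by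
    have : derivedSeries (FreeGroup Bool) 1 = ⁅(⊤ : Subgroup (FreeGroup Bool)), (⊤ : Subgroup (FreeGroup Bool))⁆ := by
      rw [show (1 : ℕ) = 0 + 1 from rfl, derivedSeries_succ, derivedSeries_zero]
    rw [this, ← Subgroup.map_le_iff_le_comap, Subgroup.map_commutator]
    refine le_trans ?_ comm_K0
    have : Subgroup.map (rho N ξ) ⊤ ≤ K0 N p := by
      rw [Subgroup.map_le_iff_le_comap]
      intro g _
      exact rho_mem_K0 ξ g
    exact Subgroup.commutator_mono this this
  have h2 : derivedSeries (FreeGroup Bool) 2 ≤ (K2 N p).comap (rho N ξ) := by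
    rw [show (2 : ℕ) = 1 + 1 from rfl, derivedSeries_succ, ← Subgroup.map_le_iff_le_comap,
      Subgroup.map_commutator]
    refine le_trans ?_ comm_K1
    have := Subgroup.map_le_iff_le_comap.mpr h1
    exact Subgroup.commutator_mono this this
  rw [show (3 : ℕ) = 2 + 1 from rfl, derivedSeries_succ, ← MonoidHom.comap_bot, ← Subgroup.map_le_iff_le_comap,
      Subgroup.map_commutator]
  refine le_trans ?_ comm_K2
  have := Subgroup.map_le_iff_le_comap.mpr h2
  exact Subgroup.commutator_mono this this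

end Pool.Agent.H876R3.FIG
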