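import Pool.Agent.H876R3.FIG

set_option autoImplicit false

namespace Pool.Agent.H876R3.FIG

variable {N p : ℕ}

theorem fix_of_ne [NeZero N] [Fact p.Prime] (ξ : (ZMod p)ˣ) (g : FreeGroup Bool)
    (hξ : ((ξ ^ 2) ^ (Multiplicative.toAdd (ee g))) ^ N ≠ 1) :
    ∃ w, rho N ξ g w = w := by
  obtain ⟨c, b, h, hc⟩ := rho_form (N := N) ξ g
  set e := Multiplicative.toAdd (ee g) with he
  let f : (ZMod N → ZMod p) →+ (ZMod N → ZMod p) :=
    { toFun := fun w j => w j - c j * w (j - (e : ZMod N))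
      map_zero' := by ext; simp
      map_add' := by
        intro u v
        ext j
        simp only [Pi.add_apply]
        ring }
  have hinj : Function.Injective f := by
    rw [injective_iff_map_eq_zero]
    intro w hw
    have h1 : ∀ j, w j = c j * w (j - e) := by
      intro j
      have := congrFun hw j
      exact sub_eq_zero.mp this
    have h2 : ∀ j, (w j) ^ 2 = (((ξ ^ 2) ^ e : (ZMod p)ˣ) : ZMod p) * (w (j - e)) ^ 2 := by
      intro j
      rw [← hc j]
      push_cast
      rw [← mul_pow, ← h1 j]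
    have h3 : ∀ m : ℕ, ∀ j, (w j) ^ 2 =
        ((((ξ ^ 2) ^ e) ^ m : (ZMod p)ˣ) : ZMod p) * (w (j - m * e)) ^ 2 := by
      intro m
      induction m with
      | zero => intro j; simp
      | succ m ih =>
          intro j
          rw [ih j, h2 (j - m * e)]
          have : j - (m : ZMod N) * e - e = j - ((m + 1 : ℕ) : ZMod N) * e := by
            push_cast; ring
          rw [this, pow_succ]
          push_cast
          ring
    ext j
    have h4 := h3 N j
    have h5 : j - (N : ZMod N) * e = j := by simp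
    rw [h5] at h4
    have h6 : (((((ξ ^ 2) ^ e) ^ N : (ZMod p)ˣ) : ZMod p) - 1) * (w j) ^ 2 = 0 := by
      linear_combination -h4
    rcases mul_eq_zero.mp h6 with h7 | h7
    · exfalso
      apply hξ
      rw [← Units.val_eq_one]
      exact sub_eq_zero.mp h7
    · simpa using h7
  obtain ⟨w, hw⟩ := (Finite.injective_iff_surjective.mp hinj) b
  refine ⟨w, funext fun j => ?_⟩
  rw [h w j]
  have h8 : w j - c j * w (j - (e : ZMod N)) = b j := congrFun hw j
  rw [← h8]
  ring

theorem X_zpow (ξ : (ZMod p)ˣ) (m : ℤ) (w : ZMod N → ZMod p) (j : ZMod N) :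
    ((X ξ : Equiv.Perm (ZMod N → ZMod p)) ^ m) w j = ((ξ ^ m : (ZMod p)ˣ) : ZMod p) * w (j - m) := by
  induction m using Int.induction_on generalizing w j with
  | zero => simp
  | succ m ih =>
      rw [zpow_add_one, Equiv.Perm.mul_apply, ih]
      rw [X_form ξ w]
      simp only [Pi.zero_apply, add_zero]
      rw [zpow_add_one]
      push_cast
      rw [sub_sub, mul_assoc]
  | pred m ih =>
      rw [zpow_sub_one, Equiv.Perm.mul_apply, ih]
      rw [(X_form ξ).inv w]
      simp only [Pi.zero_apply, mul_zero, add_zero]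
      rw [zpow_sub_one]
      push_cast
      rw [mul_assoc]
      congr 3
      ring

theorem ee_abs (l : List (Bool × Bool)) :
    |(Multiplicative.toAdd (ee (FreeGroup.mk l)) : ℤ)| ≤ l.length := by
  induction l with
  | nil =>
      have : (FreeGroup.mk [] : FreeGroup Bool) = 1 := rfl
      rw [this]
      simp
  | cons a t ih =>
      have h : (FreeGroup.mk (a :: t) : FreeGroup Bool) = FreeGroup.mk [a] * FreeGroup.mk t := by
        rw [FreeGroup.mul_mk]; rfl
      rw [h, map_mul, toAdd_mul]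
      refine (abs_add_le _ _).trans ?_
      have h2 : |(Multiplicative.toAdd (ee (FreeGroup.mk [a])) : ℤ)| ≤ 1 := by
        obtain ⟨i, b⟩ := a
        rw [ee, FreeGroup.lift_mk]
        cases i <;> cases b <;> simp
      simp only [List.length_cons]
      push_cast
      linarith

theorem Y_fix (ξ : (ZMod p)ˣ) (w0 : ZMod N → ZMod p) (m : ℤ)
    (h : 2 * w0 ((-m : ℤ) : ZMod N) = ((ξ ^ (-m) : (ZMod p)ˣ) : ZMod p)) :
    (Y : Equiv.Perm (ZMod N → ZMod p)) (((X ξ : Equiv.Perm (ZMod N → ZMod p)) ^ m) w0) =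
      ((X ξ : Equiv.Perm (ZMod N → ZMod p)) ^ m) w0 := by
  ext j
  by_cases hj : j = 0
  · subst hj
    have h1 : (Y : Equiv.Perm (ZMod N → ZMod p)) (((X ξ : Equiv.Perm (ZMod N → ZMod p)) ^ m) w0) 0
        = 1 - (((X ξ : Equiv.Perm (ZMod N → ZMod p)) ^ m) w0) 0 := by
      simp [Y]
    rw [h1, X_zpow]
    have h2 : (0 : ZMod N) - (m : ZMod N) = ((-m : ℤ) : ZMod N) := by push_cast; ring
    rw [h2]
    have h3 : ((ξ ^ m : (ZMod p)ˣ) : ZMod p) * ((ξ ^ (-m) : (ZMod p)ˣ) : ZMod p) = 1 := by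
      rw [← Units.val_mul, ← zpow_add]; simp
    linear_combination (-1 : ZMod p) * h3 - ((ξ ^ m : (ZMod p)ˣ) : ZMod p) * h
  · simp [Y, hj]

theorem word_fix (ξ : (ZMod p)ˣ) (w0 : ZMod N → ZMod p) (L : ℕ)
    (hw0 : ∀ i : ℤ, |i| ≤ L → 2 * w0 (i : ZMod N) = ((ξ ^ i : (ZMod p)ˣ) : ZMod p))
    (l : List (Bool × Bool)) (hl : l.length ≤ L) :
    rho N ξ (FreeGroup.mk l) w0 =
      ((X ξ : Equiv.Perm (ZMod N → ZMod p)) ^ (Multiplicative.toAdd (ee (FreeGroup.mk l)))) w0 := by
  induction l with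
  | nil =>
      have : (FreeGroup.mk [] : FreeGroup Bool) = 1 := rfl
      rw [this]
      simp
  | cons a t ih =>
      have h : (FreeGroup.mk (a :: t) : FreeGroup Bool) = FreeGroup.mk [a] * FreeGroup.mk t := by
        rw [FreeGroup.mul_mk]; rfl
      simp only [List.length_cons] at hl
      have ht := ih (by omega)
      have habs := ee_abs t
      set e := Multiplicative.toAdd (ee (FreeGroup.mk t)) with he
      have hY := Y_fix ξ w0 e (hw0 (-e) (by rw [abs_neg]; refine habs.trans ?_; exact_mod_cast (by omega)))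
      rw [h, map_mul, map_mul, toAdd_mul, Equiv.Perm.mul_apply, ht, ← he]
      obtain ⟨i, b⟩ := a
      have hr : rho N ξ (FreeGroup.mk [(i, b)]) =
          cond b (if i then X ξ else Y) (if i then X ξ else Y)⁻¹ := by
        rw [rho, FreeGroup.lift_mk]; simp
      have hee : ee (FreeGroup.mk [(i, b)]) =
          cond b (if i then Multiplicative.ofAdd (1 : ℤ) else 1)
            (if i then Multiplicative.ofAdd (1 : ℤ) else 1)⁻¹ := by
        rw [ee, FreeGroup.lift_mk]; simp
      rw [hr, hee]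
      cases i <;> cases b
      · simp only [cond_false, Bool.false_eq_true, if_false, inv_one, toAdd_one, zero_add]
        rw [Equiv.Perm.inv_eq_iff_eq]
        exact hY.symm
      · simp only [cond_true, Bool.false_eq_true, if_false, toAdd_one, zero_add]
        exact hY
      · simp only [cond_false, if_true, toAdd_inv, toAdd_ofAdd]
        rw [zpow_add, Equiv.Perm.mul_apply, zpow_neg_one]
      · simp only [cond_true, if_true, toAdd_ofAdd]
        rw [zpow_add, Equiv.Perm.mul_apply, zpow_one]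

/-- The translations in the image. -/
def T (N : ℕ) (ξ : (ZMod p)ˣ) : AddSubgroup (ZMod N → ZMod p) where
  carrier := {b | ∃ g, ∀ w, rho N ξ g w = w + b}
  add_mem' := by
    rintro a b ⟨g, hg⟩ ⟨h, hh⟩
    refine ⟨g * h, fun w => ?_⟩
    rw [map_mul, Equiv.Perm.mul_apply, hh, hg, add_assoc, add_comm b a]
  zero_mem' := ⟨1, fun w => by simp⟩
  neg_mem' := by
    rintro b ⟨g, hg⟩
    refine ⟨g⁻¹, fun w => ?_⟩
    rw [map_inv, Equiv.Perm.inv_eq_iff_eq, hg]
    simp

theorem T_shift (ξ : (ZMod p)ˣ) {b : ZMod N → ZMod p} (hb : b ∈ T N ξ) :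
    X ξ b ∈ T N ξ := by
  obtain ⟨g, hg⟩ := hb
  refine ⟨FreeGroup.of true * g * (FreeGroup.of true)⁻¹, fun w => ?_⟩
  have hx : rho N ξ (FreeGroup.of true) = X ξ := by simp [rho]
  rw [map_mul, map_mul, map_inv, hx, Equiv.Perm.mul_apply, Equiv.Perm.mul_apply, hg]
  have hadd : ∀ u v : ZMod N → ZMod p, X ξ (u + v) = X ξ u + X ξ v := by
    intro u v
    ext j
    simp [X, mul_add]
  rw [hadd]
  congr 1
  simp

theorem T_base (ξ : (ZMod p)ˣ) :
    (Pi.single 0 (((ξ ^ (N : ℤ) : (ZMod p)ˣ) : ZMod p) - 1) : ZMod N → ZMod p) ∈ T N ξ := by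
  refine ⟨(FreeGroup.of true) ^ (N : ℤ) * FreeGroup.of false * (FreeGroup.of true) ^ (-(N : ℤ)) *
    FreeGroup.of false, fun w => ?_⟩
  have hx : rho N ξ (FreeGroup.of true) = X ξ := by simp [rho]
  have hy : rho N ξ (FreeGroup.of false) = Y := by simp [rho]
  simp only [map_mul, map_zpow, hx, hy, Equiv.Perm.mul_apply]
  ext j
  rw [X_zpow]
  have hN : ((N : ℤ) : ZMod N) = 0 := by simp
  rw [hN, sub_zero]
  have hmul : ((ξ ^ (N : ℤ) : (ZMod p)ˣ) : ZMod p) * ((ξ ^ (-(N : ℤ)) : (ZMod p)ˣ) : ZMod p) = 1 := by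
    rw [← Units.val_mul, ← zpow_add]; simp
  by_cases hj : j = 0
  · subst hj
    have h1 : ∀ u : ZMod N → ZMod p, (Y : Equiv.Perm (ZMod N → ZMod p)) u 0 = 1 - u 0 := by
      intro u; simp [Y]
    rw [h1, X_zpow, Int.cast_neg, hN, neg_zero, sub_zero, h1]
    simp only [Pi.add_apply, Pi.single_eq_same]
    linear_combination (w 0 - 1) * hmul
  · have h1 : ∀ u : ZMod N → ZMod p, (Y : Equiv.Perm (ZMod N → ZMod p)) u j = u j := by
      intro u; simp [Y, hj]
    rw [h1, X_zpow, Int.cast_neg, hN, neg_zero, sub_zero, h1]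
    simp only [Pi.add_apply, Pi.single_eq_of_ne hj, add_zero]
    rw [← mul_assoc, hmul, one_mul]

theorem T_nat (ξ : (ZMod p)ˣ) (n : ℕ) :
    (Pi.single (n : ZMod N) (((ξ ^ n : (ZMod p)ˣ) : ZMod p) * (((ξ ^ (N : ℤ) : (ZMod p)ˣ) : ZMod p) - 1)) :
      ZMod N → ZMod p) ∈ T N ξ := by
  induction n with
  | zero => simpa using T_base (N := N) ξ
  | succ n ih =>
      have := T_shift ξ ih
      convert this using 1
      ext j
      simp only [X, Equiv.coe_fn_mk]
      by_cases hj : j = ((n + 1 : ℕ) : ZMod N)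
      · subst hj
        have : (((n + 1 : ℕ) : ZMod N) - 1) = (n : ZMod N) := by push_cast; ring
        rw [this, Pi.single_eq_same, Pi.single_eq_same, pow_succ]
        push_cast
        ring
      · have hj' : j - 1 ≠ (n : ZMod N) := by
          intro h
          apply hj
          push_cast
          rw [← h]; ring
        rw [Pi.single_eq_of_ne hj, Pi.single_eq_of_ne hj', mul_zero]

theorem T_top [NeZero N] [Fact p.Prime] (ξ : (ZMod p)ˣ) (hξ : ξ ^ N ≠ 1) : T N ξ = ⊤ := by
  rw [eq_top_iff]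
  intro w _
  have hs : ∀ (j : ZMod N) (a : ZMod p), (Pi.single j a : ZMod N → ZMod p) ∈ T N ξ := by
    intro j a
    have h1 := T_nat (N := N) ξ j.val
    rw [ZMod.natCast_zmod_val] at h1
    set u : ZMod p := ((ξ ^ j.val : (ZMod p)ˣ) : ZMod p) * (((ξ ^ (N : ℤ) : (ZMod p)ˣ) : ZMod p) - 1) with hu
    have hu0 : u ≠ 0 := by
      rw [hu]
      refine mul_ne_zero (Units.ne_zero _) ?_
      intro h
      apply hξ
      have h2 := sub_eq_zero.mp h
      rw [Units.val_eq_one] at h2
      exact_mod_cast h2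
    have h2 := (T N ξ).nsmul_mem h1 (a / u).val
    convert h2 using 1
    rw [← Pi.single_smul, nsmul_eq_mul, ZMod.natCast_zmod_val, div_mul_cancel₀ _ hu0]
  rw [← Finset.univ_sum_single w]
  exact AddSubgroup.sum_mem _ (fun j _ => hs j _)

end Pool.Agent.H876R3.FIG
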