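import Pool.Agent.H876R3.FIG2

set_option autoImplicit false

namespace Pool.Agent.H876R3.FIG

/-- For every length bound there is a transitive action on a nontrivial finite set in which every
element given by a short word has a fixed point. -/
theorem short_fix (L : ℕ) (hL : 1 ≤ L) : ∃ (N p : ℕ) (_ : NeZero N) (_ : Fact p.Prime)
    (ξ : (ZMod p)ˣ), T N ξ = ⊤ ∧ ∀ g : FreeGroup Bool, g.toWord.length ≤ L →
      ∃ w, rho N ξ g w = w := by
  set N := 2 * L + 1 with hN
  obtain ⟨p, hp1, hp⟩ := Nat.exists_infinite_primes (2 * L * N + 3)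
  have : Fact p.Prime := ⟨hp⟩
  have hN0 : NeZero N := ⟨by omega⟩
  obtain ⟨ξ, hξ⟩ := IsCyclic.exists_generator (α := (ZMod p)ˣ)
  have hord : orderOf ξ = p - 1 := by
    rw [orderOf_eq_card_of_forall_mem_zpowers hξ, Nat.card_eq_fintype_card, ZMod.card_units]
  have hkey : ∀ e : ℤ, e ≠ 0 → |e| ≤ L → ((ξ ^ 2) ^ e) ^ N ≠ 1 := by
    intro e he heL h
    have h1 : ξ ^ (2 * e * N) = 1 := by
      rw [zpow_mul, zpow_mul, zpow_natCast]
      exact_mod_cast h
    rw [← orderOf_dvd_iff_zpow_eq_one, hord] at h1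
    have h2 : (2 * e * (N : ℤ)) ≠ 0 := by
      have : (N : ℤ) ≠ 0 := by exact_mod_cast hN0.out
      positivity
    have h3 := Int.le_of_dvd (abs_pos.mpr h2) ((dvd_abs _ _).mpr h1)
    rw [abs_mul, abs_mul] at h3
    have h4 : |(2 : ℤ)| = 2 := rfl
    have h5 : |(N : ℤ)| = N := by simp
    rw [h4, h5] at h3
    have h6 : 2 * |e| * (N : ℤ) ≤ 2 * L * N := by
      have : (0 : ℤ) ≤ N := by positivity
      nlinarith
    have h7 : ((p - 1 : ℕ) : ℤ) = p - 1 := by
      have := hp.one_lt
      push_cast [Nat.cast_sub this.le]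
      ring
    rw [h7] at h3
    have h8 : ((2 * L * N + 3 : ℕ) : ℤ) ≤ p := by exact_mod_cast hp1
    push_cast at h8 h6 h3
    linarith
  have h2 : (2 : ZMod p) ≠ 0 := by
    intro h
    have : ((2 : ℕ) : ZMod p) = 0 := by exact_mod_cast h
    rw [ZMod.natCast_eq_zero_iff] at this
    have := Nat.le_of_dvd (by norm_num) this
    nlinarith
  refine ⟨N, p, hN0, inferInstance, ξ, ?_, ?_⟩
  · apply T_top
    intro h
    apply hkey 1 one_ne_zero (by rw [abs_one]; exact_mod_cast hL)
    rw [zpow_one, ← pow_mul, mul_comm, pow_mul, h, one_pow]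
  · intro g hg
    by_cases he : Multiplicative.toAdd (ee g) = 0
    · refine ⟨fun j => ((ξ ^ (ZMod.valMinAbs j) : (ZMod p)ˣ) : ZMod p) / 2, ?_⟩
      have := word_fix (N := N) ξ (fun j => ((ξ ^ (ZMod.valMinAbs j) : (ZMod p)ˣ) : ZMod p) / 2) L ?_
        g.toWord hg
      · rw [FreeGroup.mk_toWord, he, zpow_zero] at this
        exact this
      · intro i hi
        have hv : ZMod.valMinAbs (i : ZMod N) = i := by
          rw [ZMod.valMinAbs_spec]
          refine ⟨rfl, ?_⟩
          have := abs_le.mp hi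
          simp only [Set.mem_Ioc]
          rw [hN]
          push_cast
          omega
        simp only [hv]
        field_simp
    · apply fix_of_ne
      apply hkey _ he
      have := ee_abs g.toWord
      rw [FreeGroup.mk_toWord] at this
      refine this.trans ?_
      exact_mod_cast hg

theorem main : ¬ (∀ (G : Type) [Group G], Group.FG G → IsSolvable G →
      ∃ S : Finset G, ∀ g : G → G,
        Subgroup.closure ((fun s => (g s)⁻¹ * s * g s) '' (S : Set G)) = ⊤) := by
  intro hall
  have hfg : Group.FG (FreeGroup Bool ⧸ derivedSeries (FreeGroup Bool) 3) := inferInstance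
  have hsol : IsSolvable (FreeGroup Bool ⧸ derivedSeries (FreeGroup Bool) 3) := by
    refine ⟨3, ?_⟩
    rw [← map_derivedSeries_eq (QuotientGroup.mk'_surjective (derivedSeries (FreeGroup Bool) 3)) 3]
    rw [Subgroup.map_eq_bot_iff, QuotientGroup.ker_mk']
  obtain ⟨S, hS⟩ := hall _ hfg hsol
  -- lifts
  let lift : (FreeGroup Bool ⧸ derivedSeries (FreeGroup Bool) 3) → FreeGroup Bool :=
    fun s => Quotient.out s
  have hlift : ∀ s, (QuotientGroup.mk (lift s) :
      FreeGroup Bool ⧸ derivedSeries (FreeGroup Bool) 3) = s := fun s => Quotient.out_eq s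
  obtain ⟨N, p, _, _, ξ, hT, hfix⟩ :=
    short_fix (S.sup (fun s => (lift s).toWord.length) + 1) (by omega)
  have hfix' : ∀ s ∈ S, ∃ w, rho N ξ (lift s) w = w := by
    intro s hs
    apply hfix
    have := Finset.le_sup (f := fun s => (lift s).toWord.length) hs
    exact this.trans (Nat.le_succ _)
  -- the induced action
  let r : (FreeGroup Bool ⧸ derivedSeries (FreeGroup Bool) 3) →* Equiv.Perm (ZMod N → ZMod p) :=
    QuotientGroup.lift _ (rho N ξ) (fun x hx => rho_derived ξ hx)
  have hr : ∀ g : FreeGroup Bool, r (QuotientGroup.mk g) = rho N ξ g := fun g => rfl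
  have htrans : ∀ w : ZMod N → ZMod p, ∃ g, r g 0 = w := by
    intro w
    have : w ∈ T N ξ := by rw [hT]; trivial
    obtain ⟨g, hg⟩ := this
    refine ⟨QuotientGroup.mk g, ?_⟩
    rw [hr, hg, zero_add]
  have hfix2 : ∀ s, ∃ g, s ∈ S → r (g⁻¹ * s * g) 0 = 0 := by
    intro s
    by_cases hs : s ∈ S
    · obtain ⟨w, hw⟩ := hfix' s hs
      obtain ⟨g, hg⟩ := htrans w
      refine ⟨g, fun _ => ?_⟩
      rw [map_mul, map_mul, Equiv.Perm.mul_apply, Equiv.Perm.mul_apply, hg, map_inv,
        Equiv.Perm.inv_eq_iff_eq, hg]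
      have : r s = rho N ξ (lift s) := by rw [← hr, hlift]
      rw [this, hw]
    · exact ⟨1, fun h => absurd h hs⟩
  choose g hg using hfix2
  let H : Subgroup (FreeGroup Bool ⧸ derivedSeries (FreeGroup Bool) 3) :=
    { carrier := {x | r x 0 = 0}
      mul_mem' := by
        intro a b ha hb
        change r (a * b) 0 = 0
        have ha' : r a 0 = 0 := ha
        have hb' : r b 0 = 0 := hb
        rw [map_mul, Equiv.Perm.mul_apply, hb', ha']
      one_mem' := by
        change r 1 0 = 0
        rw [map_one]; rfl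
      inv_mem' := by
        intro a ha
        change r a⁻¹ 0 = 0
        have ha' : r a 0 = 0 := ha
        rw [map_inv, Equiv.Perm.inv_eq_iff_eq, ha'] }
  have hle : Subgroup.closure ((fun s => (g s)⁻¹ * s * g s) '' (S : Set _)) ≤ H := by
    rw [Subgroup.closure_le]
    rintro _ ⟨s, hs, rfl⟩
    exact hg s hs
  rw [hS g] at hle
  obtain ⟨x, hx⟩ := htrans (fun _ => 1)
  have h1 : r x 0 = 0 := hle (Subgroup.mem_top x)
  rw [hx] at h1
  have h2 := congrFun h1 0
  exact one_ne_zero h2

end Pool.Agent.H876R3.FIG
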